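import Mathlib

set_option autoImplicit false

namespace Pool.Agent.Results.MP_95728c_co.Smallest

/-- one time step: lions move from `p` to `q`, cleared set `C` before the step -/
def step {V : Type*} (G : SimpleGraph V) {k : ℕ} (p q : Fin k → V) (C : Set V) : Set V :=
  {v | (∃ i, q i = v) ∨ (v ∈ C ∧ ∀ u, G.Adj v u → u ∉ C → ∃ i, p i = v ∧ q i = u)}

/-- the cleared set `C(t)` for lion positions `pos t i` -/
def cleared {V : Type*} (G : SimpleGraph V) {k : ℕ} (pos : ℕ → Fin k → V) : ℕ → Set V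
  | 0 => {v | ∃ i, pos 0 i = v}
  | t + 1 => step G (pos t) (pos (t + 1)) (cleared G pos t)

/-- each lion stays or moves along an edge -/
def Legal {V : Type*} (G : SimpleGraph V) {k : ℕ} (pos : ℕ → Fin k → V) : Prop :=
  ∀ t i, pos (t + 1) i = pos t i ∨ G.Adj (pos t i) (pos (t + 1) i)

def Sweep {V : Type*} (G : SimpleGraph V) (k : ℕ) : Prop :=
  ∃ pos : ℕ → Fin k → V, Legal G pos ∧ ∃ T, cleared G pos T = Set.univ

def MonoSweep {V : Type*} (G : SimpleGraph V) (k : ℕ) : Prop :=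
  ∃ pos : ℕ → Fin k → V, Legal G pos ∧ ∃ T, cleared G pos T = Set.univ ∧
    ∀ t < T, cleared G pos t ⊆ cleared G pos (t + 1)

/-- `k ≥ 1` lions sweep `G`, but not monotonically -/
def Cex {n : ℕ} (G : SimpleGraph (Fin n)) (k : ℕ) : Prop :=
  1 ≤ k ∧ Sweep G k ∧ ¬ MonoSweep G k

section general
variable {V : Type*} (G : SimpleGraph V) {k : ℕ}

lemma pos_mem (pos : ℕ → Fin k → V) (t : ℕ) (i : Fin k) : pos t i ∈ cleared G pos t := by
  cases t with
  | zero => exact ⟨i, rfl⟩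
  | succ t => exact Or.inl ⟨i, rfl⟩

/-- states reachable monotonically -/
inductive MR : (Fin k → V) → Set V → Prop
  | init (p : Fin k → V) : MR p {v | ∃ i, p i = v}
  | next (p q : Fin k → V) (C : Set V) : MR p C → (∀ i, q i = p i ∨ G.Adj (p i) (q i)) →
      C ⊆ step G p q C → MR q (step G p q C)

lemma cleared_congr (pos pos' : ℕ → Fin k → V) (T : ℕ) (h : ∀ t ≤ T, pos t = pos' t) :
    ∀ t ≤ T, cleared G pos t = cleared G pos' t := by
  intro t ht
  induction t with
  | zero => simp [cleared, h 0 ht]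
  | succ t ih => simp [cleared, h t (by omega), h (t + 1) ht, ih (by omega)]

lemma MR_play {p : Fin k → V} {C : Set V} (h : MR G p C) :
    ∃ pos : ℕ → Fin k → V, Legal G pos ∧ ∃ T, pos T = p ∧ cleared G pos T = C ∧
      ∀ t < T, cleared G pos t ⊆ cleared G pos (t + 1) := by
  induction h with
  | init p => exact ⟨fun _ => p, fun _ _ => Or.inl rfl, 0, rfl, rfl, fun _ h => absurd h (by omega)⟩
  | next p q C _ hl hm ih =>
    obtain ⟨pos, hL, T, h1, h2, h3⟩ := ih
    let pos' : ℕ → Fin k → V := fun t => if t ≤ T then pos t else q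
    have e := cleared_congr G pos' pos T (fun t ht => by simp [pos', ht])
    have e2 : cleared G pos' (T + 1) = step G p q C := by
      simp [cleared, e T le_rfl, h2, pos', h1]
    refine ⟨pos', fun t i => ?_, T + 1, by simp [pos'], e2, fun t ht => ?_⟩
    · rcases lt_trichotomy t T with h | h | h
      · simpa [pos', h.le, Nat.succ_le_of_lt h] using hL t i
      · subst h; simpa [pos', h1] using hl i
      · left; simp [pos', not_le.2 h, show ¬ t + 1 ≤ T by omega]
    · rcases Nat.lt_succ_iff_lt_or_eq.1 ht with h | h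
      · rw [e t h.le, e (t + 1) h]; exact h3 t h
      · subst h; rw [e2, e t le_rfl, h2]; exact hm

lemma MR_sweep {p : Fin k → V} (h : MR G p Set.univ) : MonoSweep G k := by
  obtain ⟨pos, hL, T, _, h2, h3⟩ := MR_play G h
  exact ⟨pos, hL, T, h2, h3⟩

lemma mem_step1 (p q : Fin 1 → V) (C : Set V) (v : V) :
    v ∈ step G p q C ↔ q 0 = v ∨ (v ∈ C ∧ ∀ u, G.Adj v u → u ∉ C → p 0 = v ∧ q 0 = u) := by
  simp [step, Fin.exists_fin_one]

lemma deg3 (x a b c : V) (ha : G.Adj x a) (hb : G.Adj x b) (hc : G.Adj x c) (hab : a ≠ b)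
    (hac : a ≠ c) (hbc : b ≠ c) : ¬ Sweep G 1 := by
  rintro ⟨pos, -, T, hT⟩
  let N : Set V := {a, b, c}
  have hN : ∀ y ∈ N, G.Adj x y := by
    intro y hy; rcases hy with rfl | rfl | rfl <;> assumption
  have third : ∀ y z : V, ∃ w ∈ N, w ≠ y ∧ w ≠ z := by
    intro y z
    by_cases h1 : a ≠ y ∧ a ≠ z
    · exact ⟨a, by simp [N], h1⟩
    by_cases h2 : b ≠ y ∧ b ≠ z
    · exact ⟨b, by simp [N], h2⟩
    refine ⟨c, by simp [N], ?_⟩
    grind
  have key : ∀ t, (∃ y ∈ N, ∃ z ∈ N, y ≠ z ∧ y ∉ cleared G pos t ∧ z ∉ cleared G pos t) ∨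
      (x ∉ cleared G pos t ∧ pos t 0 ∈ N ∧ ∃ y ∈ N, y ∉ cleared G pos t) := by
    intro t
    induction t with
    | zero =>
      left
      obtain ⟨y, hy, h1, -⟩ := third (pos 0 0) (pos 0 0)
      obtain ⟨z, hz, h2, h3⟩ := third (pos 0 0) y
      exact ⟨y, hy, z, hz, h3.symm, by simpa [cleared, Fin.exists_fin_one] using h1,
        by simpa [cleared, Fin.exists_fin_one] using h2⟩
    | succ t ih =>
      have hp := pos_mem G pos t 0
      simp only [cleared, mem_step1]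
      set C := cleared G pos t
      set p := pos t 0
      set q := pos (t + 1) 0
      rcases ih with ⟨y, hy, z, hz, hyz, h1, h2⟩ | ⟨h0, hpN, y, hy, h1⟩
      · by_cases e1 : q = y
        · right
          refine ⟨?_, e1 ▸ hy, z, hz, by grind⟩
          have := (hN y hy).ne
          have := hN z hz
          grind
        by_cases e2 : q = z
        · right
          refine ⟨?_, e2 ▸ hz, y, hy, by grind⟩
          have := (hN z hz).ne
          have := hN y hy
          grind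
        left; exact ⟨y, hy, z, hz, hyz, by grind, by grind⟩
      · left
        obtain ⟨w, hw, h2, h3⟩ := third p y
        have a1 := (hN w hw).symm
        have a2 := (hN p hpN).symm
        have a3 := (hN w hw).ne
        have a4 := (hN y hy).ne
        have hpy : p ≠ y := by grind
        by_cases e1 : q = y
        · exact ⟨w, hw, p, hpN, h2, by grind, by grind⟩
        by_cases e2 : q = w
        · exact ⟨y, hy, p, hpN, hpy.symm, by grind, by grind⟩
        · exact ⟨y, hy, w, hw, h3.symm, by grind, by grind⟩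
  rcases key T with ⟨y, -, z, -, -, h, -⟩ | ⟨h, -⟩ <;> exact h (hT ▸ Set.mem_univ _)

lemma one_lion (h : Sweep G 1) : MonoSweep G 1 := by
  have hd := fun x a b c ha hb hc hab hac hbc => deg3 G x a b c ha hb hc hab hac hbc h
  obtain ⟨pos, hL, T, hT⟩ := h
  have key : ∀ t, ∃ (r : Fin 1 → V) (D : Set V), MR G r D ∧ cleared G pos t ⊆ D ∧ r 0 ∈ D ∧
      (∀ v ∈ D, v ≠ r 0 → ∀ u, G.Adj v u → u ∈ D) ∧
      ((∀ v ∈ D, v = r 0) ∨ ∃ u ∈ D, G.Adj (r 0) u) := by
    intro t
    have triv : ∀ r : Fin 1 → V, ∀ C : Set V, (∀ v ∈ C, v = r 0) → ∃ (r : Fin 1 → V) (D : Set V),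
        MR G r D ∧ C ⊆ D ∧ r 0 ∈ D ∧ (∀ v ∈ D, v ≠ r 0 → ∀ u, G.Adj v u → u ∈ D) ∧
        ((∀ v ∈ D, v = r 0) ∨ ∃ u ∈ D, G.Adj (r 0) u) := by
      intro r C hC
      refine ⟨r, _, MR.init r, fun v hv => ⟨0, (hC v hv).symm⟩, ⟨0, rfl⟩, ?_, Or.inl ?_⟩
      · rintro v ⟨i, rfl⟩ hv; exact absurd (congrArg r (Subsingleton.elim _ _)) hv
      · rintro v ⟨i, rfl⟩; exact congrArg r (Subsingleton.elim _ _)
    induction t with
    | zero =>
      apply triv (pos 0)
      rintro v ⟨i, rfl⟩; exact congrArg _ (Subsingleton.elim _ _)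
    | succ t ih =>
      obtain ⟨r, D, hM, hC, hr, hb, hn⟩ := ih
      have hp := hC (pos_mem G pos t 0)
      by_cases hq : pos (t + 1) 0 ∈ D
      · refine ⟨r, D, hM, fun v hv => ?_, hr, hb, hn⟩
        rcases (mem_step1 G _ _ _ v).1 hv with rfl | h
        · exact hq
        · exact hC h.1
      have hadj : G.Adj (pos t 0) (pos (t + 1) 0) := by
        rcases hL t 0 with h | h
        · exact absurd (h ▸ hp) hq
        · exact h
      have hpr : pos t 0 = r 0 := by
        by_contra hne; exact hq (hb _ hp hne _ hadj)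
      by_cases hw : ∀ w, G.Adj (r 0) w → w ∉ D → w = pos (t + 1) 0
      · have hsub : D ⊆ step G r (pos (t + 1)) D := by
          intro v hv
          rw [mem_step1]; right
          refine ⟨hv, fun u hu hu' => ?_⟩
          have : v = r 0 := by by_contra hne; exact hu' (hb v hv hne u hu)
          exact ⟨this.symm, (hw u (this ▸ hu) hu').symm⟩
        have hq' : pos (t + 1) 0 ∈ step G r (pos (t + 1)) D := Or.inl ⟨0, rfl⟩
        refine ⟨pos (t + 1), _, MR.next r _ D hM (fun i => ?_) hsub, fun v hv => ?_, hq', ?_, ?_⟩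
        · obtain rfl : i = 0 := Subsingleton.elim _ _
          right; rwa [← hpr]
        · rcases (mem_step1 G _ _ _ v).1 hv with rfl | h
          · exact hq'
          · exact hsub (hC h.1)
        · intro v hv hne u hu
          rcases (mem_step1 G _ _ _ v).1 hv with rfl | h
          · exact absurd rfl hne
          · by_cases hu' : u ∈ D
            · exact hsub hu'
            · exact (h.2 u hu hu').2 ▸ hq'
        · right; exact ⟨r 0, hsub hr, by rw [← hpr]; exact hadj.symm⟩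
      · push Not at hw
        obtain ⟨w, hw1, hw2, hw3⟩ := hw
        rcases hn with hn | ⟨u, hu, hu'⟩
        · apply triv (pos (t + 1))
          intro v hv
          rcases (mem_step1 G _ _ _ v).1 hv with rfl | h
          · rfl
          · have := hn v (hC h.1)
            exact absurd (h.2 w (this ▸ hw1) (fun hh => hw2 (hC hh))).2.symm hw3
        · exact (hd (r 0) u w (pos (t + 1) 0) hu' hw1 (hpr ▸ hadj) (fun e => hw2 (e ▸ hu))
            (fun e => hq (e ▸ hu)) hw3).elim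
  obtain ⟨r, D, hM, hC, -⟩ := key T
  rw [hT, Set.univ_subset_iff] at hC
  exact MR_sweep G (hC ▸ hM)

lemma no_edge (h0 : ∀ u v, ¬ G.Adj u v) (h : Sweep G k) : MonoSweep G k := by
  obtain ⟨pos, hL, T, hT⟩ := h
  exact ⟨pos, hL, T, hT, fun t _ v hv => Or.inr ⟨hv, fun u hu => absurd hu (h0 _ _)⟩⟩

lemma many {n : ℕ} (G : SimpleGraph (Fin n)) (hk : n ≤ k + 1) (h : Sweep G k) :
    MonoSweep G k := by
  by_cases h0 : ∀ u v, ¬ G.Adj u v
  · exact no_edge G h0 h
  push Not at h0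
  obtain ⟨u, v, huv⟩ := h0
  have : Nonempty {x : Fin n // x ≠ u} := ⟨⟨v, huv.ne.symm⟩⟩
  obtain ⟨f, hf⟩ : ∃ f : Fin k → {x : Fin n // x ≠ u}, Function.Surjective f := by
    obtain ⟨g⟩ : Nonempty ({x : Fin n // x ≠ u} ↪ Fin k) :=
      Function.Embedding.nonempty_of_card_le (by simp; omega)
    exact ⟨Function.invFun g, Function.invFun_surjective g.injective⟩
  let p : Fin k → Fin n := fun i => (f i).1
  let q : Fin k → Fin n := fun i => if p i = v then u else p i
  have hall : ∀ x, x ∈ step G p q {x | ∃ i, p i = x} := by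
    intro x
    obtain ⟨j, hj⟩ := hf ⟨v, huv.ne.symm⟩
    have hj' : p j = v := congrArg Subtype.val hj
    by_cases hx : x = u
    · exact Or.inl ⟨j, by simp [q, hj', hx]⟩
    obtain ⟨i, hi⟩ := hf ⟨x, hx⟩
    have hi' : p i = x := congrArg Subtype.val hi
    by_cases hx' : x = v
    · refine Or.inr ⟨⟨i, hi'⟩, fun w _ hw => ⟨j, hx' ▸ hj', ?_⟩⟩
      by_contra hne
      have : w ≠ u := by intro e; apply hne; simp [q, hj', e]
      obtain ⟨l, hl⟩ := hf ⟨w, this⟩
      exact hw ⟨l, congrArg Subtype.val hl⟩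
    · exact Or.inl ⟨i, by simp [q, hi', hx']⟩
  have hM := MR.next p q _ (MR.init (G := G) p) (fun i => by
    by_cases e : p i = v
    · right; simp only [q, e, if_true]; exact huv.symm
    · left; simp [q, e]) (fun x _ => hall x)
  rw [Set.eq_univ_iff_forall.2 hall] at hM
  exact MR_sweep G hM

end general

/-- Boolean step for two lions -/
def stepB {n : ℕ} (A : Fin n → Fin n → Bool) (a b c d : Fin n) (C : Fin n → Bool) (v : Fin n) :
    Bool :=
  decide (c = v ∨ d = v ∨ (C v = true ∧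
    ∀ u, A v u = true → C u = false → (a = v ∧ c = u) ∨ (b = v ∧ d = u)))

def initB {n : ℕ} (a b v : Fin n) : Bool := decide (a = v ∨ b = v)

lemma stepB_spec {n : ℕ} (G : SimpleGraph (Fin n)) (A : Fin n → Fin n → Bool)
    (hA : ∀ u v, G.Adj u v ↔ A u v = true) (p q : Fin 2 → Fin n) (C : Fin n → Bool) :
    step G p q {v | C v = true} = {v | stepB A (p 0) (p 1) (q 0) (q 1) C v = true} := by
  ext v; simp [step, stepB, hA, Fin.exists_fin_two, or_assoc]

lemma initB_spec {n : ℕ} (p : Fin 2 → Fin n) :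
    {v | ∃ i, p i = v} = {v | initB (p 0) (p 1) v = true} := by
  ext v; simp [initB, Fin.exists_fin_two]

def mv {n : ℕ} (A : Fin n → Fin n → Bool) (a c : Fin n) : Bool := decide (c = a) || A a c

lemma legalB {n : ℕ} (G : SimpleGraph (Fin n)) (A : Fin n → Fin n → Bool)
    (hA : ∀ u v, G.Adj u v ↔ A u v = true) (p q : Fin 2 → Fin n) :
    (∀ i, q i = p i ∨ G.Adj (p i) (q i)) ↔ mv A (p 0) (q 0) = true ∧ mv A (p 1) (q 1) = true := by
  simp [mv, hA, Fin.forall_fin_two]

lemma invariant {n : ℕ} (G : SimpleGraph (Fin n)) (A : Fin n → Fin n → Bool)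
    (hA : ∀ u v, G.Adj u v ↔ A u v = true) (pos : ℕ → Fin 2 → Fin n) (hL : Legal G pos) (T : ℕ)
    (I : Fin n → Fin n → (Fin n → Bool) → Prop) (h0 : ∀ a b, I a b (initB a b))
    (h1 : ∀ t < T, ∀ C : Fin n → Bool, cleared G pos t = {v | C v = true} →
      mv A (pos t 0) (pos (t + 1) 0) = true → mv A (pos t 1) (pos (t + 1) 1) = true →
      I (pos t 0) (pos t 1) C → I (pos (t + 1) 0) (pos (t + 1) 1)
        (stepB A (pos t 0) (pos t 1) (pos (t + 1) 0) (pos (t + 1) 1) C)) :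
    ∀ t ≤ T, ∃ C : Fin n → Bool, cleared G pos t = {v | C v = true} ∧ I (pos t 0) (pos t 1) C := by
  intro t ht
  induction t with
  | zero => exact ⟨_, initB_spec _, h0 _ _⟩
  | succ t ih =>
    obtain ⟨C, hC, hI⟩ := ih (by omega)
    have := (legalB G A hA (pos t) (pos (t + 1))).1 (hL t)
    exact ⟨_, by rw [cleared, hC, stepB_spec G A hA], h1 t ht C hC this.1 this.2 hI⟩

def A4 (b0 b1 b2 b3 b4 b5 : Bool) : Fin 4 → Fin 4 → Bool :=
  ![![false, b0, b1, b2], ![b0, false, b3, b4], ![b1, b3, false, b5], ![b2, b4, b5, false]]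

def I4 (A : Fin 4 → Fin 4 → Bool) (a b : Fin 4) (C : Fin 4 → Bool) : Prop :=
  (∃ v, C v = false) ∧ C a = true ∧ C b = true ∧
    ∀ v, C v = true → (∀ u, A v u = false) → a = v ∨ b = v

instance (A : Fin 4 → Fin 4 → Bool) (a b : Fin 4) (C : Fin 4 → Bool) : Decidable (I4 A a b C) := by
  unfold I4; infer_instance

lemma check4 : ∀ b0 b1 b2 b3 b4 b5 : Bool,
    (∃ a b c : Fin 4, mv (A4 b0 b1 b2 b3 b4 b5) a c = true ∧ ∃ d : Fin 4,
      mv (A4 b0 b1 b2 b3 b4 b5) b d = true ∧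
      (∀ v, initB a b v = true → stepB (A4 b0 b1 b2 b3 b4 b5) a b c d (initB a b) v = true) ∧
      ∃ e : Fin 4, mv (A4 b0 b1 b2 b3 b4 b5) c e = true ∧ ∃ f : Fin 4,
      mv (A4 b0 b1 b2 b3 b4 b5) d f = true ∧
      ∀ v, stepB (A4 b0 b1 b2 b3 b4 b5) c d e f
        (stepB (A4 b0 b1 b2 b3 b4 b5) a b c d (initB a b)) v = true) ∨
    ((∀ a b, I4 (A4 b0 b1 b2 b3 b4 b5) a b (initB a b)) ∧
      ∀ a c : Fin 4, mv (A4 b0 b1 b2 b3 b4 b5) a c = true → ∀ b d : Fin 4,
        mv (A4 b0 b1 b2 b3 b4 b5) b d = true → ∀ c0 c1 c2 c3 : Bool,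
        I4 (A4 b0 b1 b2 b3 b4 b5) a b ![c0, c1, c2, c3] →
        I4 (A4 b0 b1 b2 b3 b4 b5) c d (stepB (A4 b0 b1 b2 b3 b4 b5) a b c d ![c0, c1, c2, c3])) := by
  decide +kernel

lemma four (G : SimpleGraph (Fin 4)) (h : Sweep G 2) : MonoSweep G 2 := by
  classical
  obtain ⟨b0, b1, b2, b3, b4, b5, hA⟩ : ∃ b0 b1 b2 b3 b4 b5 : Bool,
      ∀ u v, G.Adj u v ↔ A4 b0 b1 b2 b3 b4 b5 u v = true := by
    refine ⟨decide (G.Adj 0 1), decide (G.Adj 0 2), decide (G.Adj 0 3), decide (G.Adj 1 2),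
      decide (G.Adj 1 3), decide (G.Adj 2 3), fun u v => ?_⟩
    fin_cases u <;> fin_cases v <;> simp [A4] <;> exact G.adj_comm _ _
  rcases check4 b0 b1 b2 b3 b4 b5 with ⟨a, b, c, h1, d, h2, h3, e, h4, f, h5, h6⟩ | ⟨h1, h2⟩
  · have M0 := MR.init (G := G) ![a, b]
    rw [initB_spec] at M0
    have M1 := MR.next ![a, b] ![c, d] _ M0 ((legalB G _ hA _ _).2 ⟨h1, h2⟩)
      (by rw [stepB_spec G _ hA]; exact h3)
    rw [stepB_spec G _ hA] at M1
    have M2 := MR.next ![c, d] ![e, f] _ M1 ((legalB G _ hA _ _).2 ⟨h4, h5⟩)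
      (by rw [stepB_spec G _ hA]; exact fun v _ => h6 v)
    rw [stepB_spec G _ hA] at M2
    apply MR_sweep G (p := ![e, f])
    convert M2 using 1
    exact (Set.eq_univ_iff_forall.2 h6).symm
  · obtain ⟨pos, hL, T, hT⟩ := h
    obtain ⟨C, hC, ⟨v, hv⟩, -⟩ := invariant G _ hA pos hL T (I4 (A4 b0 b1 b2 b3 b4 b5)) h1
      (fun t _ C _ m1 m2 hI => by
        have e : C = ![C 0, C 1, C 2, C 3] := by ext i; fin_cases i <;> rfl
        rw [e] at hI ⊢
        exact h2 _ _ m1 _ _ m2 _ _ _ _ hI) T le_rfl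
    have : v ∈ cleared G pos T := hT ▸ Set.mem_univ _
    rw [hC] at this
    simp [hv] at this

def A5 (u v : Fin 5) : Bool := decide ((u.1 < 3 ∧ 3 ≤ v.1) ∨ (v.1 < 3 ∧ 3 ≤ u.1))

/-- `K_{2,3}` -/
def K23 : SimpleGraph (Fin 5) where
  Adj u v := A5 u v = true
  symm := ⟨by decide⟩
  loopless := ⟨by decide⟩

def I5 (C : Fin 5 → Bool) : Prop := ∃ u v, u ≠ v ∧ C u = false ∧ C v = false

instance (C : Fin 5 → Bool) : Decidable (I5 C) := by unfold I5; infer_instance

lemma check5 : ∀ a c : Fin 5, mv A5 a c = true → ∀ b d : Fin 5, mv A5 b d = true →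
    ∀ c0 c1 c2 c3 c4 : Bool, I5 ![c0, c1, c2, c3, c4] →
    (∀ v, ![c0, c1, c2, c3, c4] v = true → stepB A5 a b c d ![c0, c1, c2, c3, c4] v = true) →
    ![c0, c1, c2, c3, c4] a = true → ![c0, c1, c2, c3, c4] b = true →
    I5 (stepB A5 a b c d ![c0, c1, c2, c3, c4]) := by
  decide +kernel

def path : ℕ → Fin 2 → Fin 5
  | 0 => ![0, 3]
  | 1 => ![4, 1]
  | 2 => ![2, 3]
  | _ + 3 => ![4, 0]

lemma cex : Cex K23 2 := by
  have hA : ∀ u v, K23.Adj u v ↔ A5 u v = true := fun _ _ => Iff.rfl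
  refine ⟨by norm_num, ⟨path, fun t => (legalB K23 A5 hA _ _).2 ?_, 3, ?_⟩, ?_⟩
  · rcases t with _ | _ | _ | t <;> simp only [path] <;> decide
  · simp only [cleared, initB_spec, stepB_spec K23 A5 hA]
    rw [Set.eq_univ_iff_forall]
    simp only [Set.mem_ofPred_eq]
    decide +kernel
  · rintro ⟨pos, hL, T, hT, hm⟩
    obtain ⟨C, hC, u, v, -, hu, -⟩ := invariant K23 _ hA pos hL T (fun _ _ C => I5 C)
      (by decide +kernel)
      (fun t ht C hC m1 m2 hI => by
        have e : C = ![C 0, C 1, C 2, C 3, C 4] := by ext i; fin_cases i <;> rfl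
        have s := hm t ht
        rw [cleared, hC, stepB_spec K23 A5 hA] at s
        have p0 := pos_mem K23 pos t 0
        have p1 := pos_mem K23 pos t 1
        rw [hC] at p0 p1
        rw [e] at hI s p0 p1 ⊢
        exact check5 _ _ m1 _ _ m2 _ _ _ _ _ hI s p0 p1) T le_rfl
    have : u ∈ cleared K23 pos T := hT ▸ Set.mem_univ _
    rw [hC] at this
    simp [hu] at this

theorem result :
    IsLeast {k : ℕ | ∃ (n : ℕ) (G : SimpleGraph (Fin n)), Cex G k} 2 ∧
    IsLeast {n : ℕ | ∃ (G : SimpleGraph (Fin n)) (k : ℕ), Cex G k} 5 ∧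
    ∃ G : SimpleGraph (Fin 5), Cex G 2 := by
  refine ⟨⟨⟨5, K23, cex⟩, ?_⟩, ⟨⟨K23, 2, cex⟩, ?_⟩, K23, cex⟩
  · rintro k ⟨n, G, h1, h2, h3⟩
    by_contra hk
    obtain rfl : k = 1 := by omega
    exact h3 (one_lion G h2)
  · rintro n ⟨G, k, h1, h2, h3⟩
    by_contra hn
    by_cases e1 : k = 1
    · subst e1; exact h3 (one_lion G h2)
    by_cases e2 : n ≤ k + 1
    · exact h3 (many G e2 h2)
    obtain rfl : k = 2 := by omega
    obtain rfl : n = 4 := by omega
    exact h3 (four G h2)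

end Pool.Agent.Results.MP_95728c_co.Smallest
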